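import Pool.Agent.Helper69.MF.StA

set_option autoImplicit false

namespace Pool.Agent.Helper42.MF

open Set Topology Filter MeasureTheory
open Pool.Agent.Helper31.CY Pool.Agent.Helper69.MF

/-- finite area in bounded regions -/
private def FB (M : Set E3) : Prop := ∀ R : ℝ, ar (M ∩ Metric.closedBall 0 R) < ⊤

private lemma FB_mono {M M' : Set E3} (h : M ⊆ M') (hM : FB M') : FB M := fun R =>
  lt_of_le_of_lt (measure_mono (inter_subset_inter_left _ h)) (hM R)

private lemma FB_union {M M' : Set E3} (h : FB M) (h' : FB M') : FB (M ∪ M') := fun R => by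
  rw [union_inter_distrib_right]
  exact lt_of_le_of_lt (measure_union_le _ _) (ENNReal.add_lt_top.mpr ⟨h R, h' R⟩)

private lemma FB_plane (N : E3) (hN : N ≠ 0) : FB {x | (inner ℝ N x : ℝ) = 0} := by
  intro R
  haveI : Fact (Module.finrank ℝ E3 = 2 + 1) := ⟨by simp⟩
  have hfr : Module.finrank ℝ (ℝ ∙ N)ᗮ = 2 := Submodule.finrank_orthogonal_span_singleton hN
  have hset : {x : E3 | (inner ℝ N x : ℝ) = 0} ∩ Metric.closedBall 0 R =
      Subtype.val '' (Metric.closedBall (0 : (ℝ ∙ N)ᗮ) R) := by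
    ext x
    constructor
    · rintro ⟨h1, h2⟩
      refine ⟨⟨x, Submodule.mem_orthogonal_singleton_iff_inner_right.mpr h1⟩, ?_, rfl⟩
      simpa using h2
    · rintro ⟨y, h1, rfl⟩
      refine ⟨Submodule.mem_orthogonal_singleton_iff_inner_right.mp y.2, ?_⟩
      simpa using h1
  unfold ar
  rw [hset, isometry_subtype_coe.hausdorffMeasure_image (Or.inl (by norm_num))]
  have h1 : (Measure.hausdorffMeasure (Module.finrank ℝ (ℝ ∙ N)ᗮ : ℝ) :
      Measure (ℝ ∙ N)ᗮ) (Metric.closedBall (0 : (ℝ ∙ N)ᗮ) R) < ⊤ :=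
    (isCompact_closedBall _ _).measure_lt_top
  rw [hfr] at h1
  exact_mod_cast h1

private lemma inner_pt (a b c : ℝ) (x : E3) : (inner ℝ (pt a b c) x : ℝ) =
    a * x 0 + b * x 1 + c * x 2 := by
  simp [pt, PiLp.inner_apply, Fin.sum_univ_three]
  ring

private lemma pt_ne {a b c : ℝ} (h : a ≠ 0 ∨ b ≠ 0 ∨ c ≠ 0) : pt a b c ≠ 0 := by
  intro h0
  have e0 := congrArg (fun v : E3 => v 0) h0
  have e1 := congrArg (fun v : E3 => v 1) h0
  have e2 := congrArg (fun v : E3 => v 2) h0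
  simp [pt] at e0 e1 e2
  tauto

private lemma FB_lin {a b c : ℝ} (h : a ≠ 0 ∨ b ≠ 0 ∨ c ≠ 0) :
    FB {x | a * x 0 + b * x 1 + c * x 2 = 0} := by
  have h1 := FB_plane (pt a b c) (pt_ne h)
  simp only [inner_pt] at h1
  exact h1

private lemma FB_Y : FB Ycone := by
  refine FB_mono ?_ (FB_union (FB_lin (a := 0) (b := 1) (c := 0) (by simp))
    (FB_union (FB_lin (a := Real.sqrt 3) (b := 1) (c := 0) (by simp))
      (FB_lin (a := Real.sqrt 3) (b := -1) (c := 0) (by simp))))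
  rintro v ⟨t, ht, h | h | h⟩
  · left
    have h1 : v 1 = 0 := congrArg Prod.snd h
    simp [h1]
  · right; left
    have h0 : v 0 = -(t / 2) := congrArg Prod.fst h
    have h1 : v 1 = Real.sqrt 3 / 2 * t := congrArg Prod.snd h
    simp only [mem_setOf_eq]
    rw [h0, h1]; ring
  · right; right
    have h0 : v 0 = -(t / 2) := congrArg Prod.fst h
    have h1 : v 1 = -(Real.sqrt 3 / 2 * t) := congrArg Prod.snd h
    simp only [mem_setOf_eq]
    rw [h0, h1]; ring

private lemma FB_T : FB Tcone := by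
  refine FB_mono ?_ (FB_union (FB_lin (a := 0) (b := 1) (c := 1) (by simp))
    (FB_union (FB_lin (a := 0) (b := 1) (c := -1) (by simp))
    (FB_union (FB_lin (a := 1) (b := 0) (c := 1) (by simp))
    (FB_union (FB_lin (a := 1) (b := 0) (c := -1) (by simp))
    (FB_union (FB_lin (a := 1) (b := 1) (c := 0) (by simp))
      (FB_lin (a := 1) (b := -1) (c := 0) (by simp)))))))
  rintro v ⟨i, j, hij, s, t, hs, ht, rfl⟩
  fin_cases i <;> fin_cases j <;> first
    | exact absurd rfl hij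
    | (simp only [mem_union, mem_setOf_eq, tv, pt]
       simp
       try ring_nf
       try simp)

/-- the main lemma -/
private lemma loc {S M : Set E3} {p : E3} {Φ : E3 → E3} {U : Set E3} (hU : IsOpen U) (hp : p ∈ U)
    (hΦ : ContDiffOn ℝ 1 Φ U) (hinj : ∀ v, fderiv ℝ Φ p v = 0 → v = 0) (hM : FB M)
    (hS : ∀ x ∈ U, x ∈ S → Φ x ∈ M) : (Measure.hausdorffMeasure 2 : Measure E3).FiniteAtFilter
      (𝓝[S] p) := by
  have hcd : ContDiffAt ℝ 1 Φ p := hΦ.contDiffAt (hU.mem_nhds hp)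
  have hst : HasStrictFDerivAt Φ (fderiv ℝ Φ p) p := hcd.hasStrictFDerivAt (by norm_num)
  have hker : LinearMap.ker (fderiv ℝ Φ p : E3 →ₗ[ℝ] E3) = ⊥ := by
    rw [LinearMap.ker_eq_bot']
    intro v hv
    exact hinj v hv
  obtain ⟨K, hK0, hK⟩ := (fderiv ℝ Φ p : E3 →ₗ[ℝ] E3).exists_antilipschitzWith hker
  -- lower bound for the derivative
  have hlow : ∀ v, ‖v‖ ≤ K * ‖fderiv ℝ Φ p v‖ := by
    intro v
    have h1 := hK.le_mul_dist v 0
    simpa using h1
  have hK0R : (0 : ℝ) < K := by exact_mod_cast hK0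
  obtain ⟨W, hW, hWa⟩ := hst.approximates_deriv_on_nhds (c := ⟨1 / (2 * (K : ℝ)), by positivity⟩)
    (Or.inr (by
      rw [← NNReal.coe_pos]
      show (0 : ℝ) < 1 / (2 * (K : ℝ))
      positivity))
  have hcont : ContinuousAt Φ p := hcd.continuousAt
  have hB : Φ ⁻¹' Metric.closedBall (Φ p) 1 ∈ 𝓝 p :=
    hcont.preimage_mem_nhds (Metric.closedBall_mem_nhds _ one_pos)
  refine ⟨S ∩ (U ∩ W ∩ Φ ⁻¹' Metric.closedBall (Φ p) 1), ?_, ?_⟩
  · rw [mem_nhdsWithin_iff_exists_mem_nhds_inter]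
    exact ⟨U ∩ W ∩ Φ ⁻¹' Metric.closedBall (Φ p) 1,
      inter_mem (inter_mem (hU.mem_nhds hp) hW) hB, fun x hx => ⟨hx.2, hx.1⟩⟩
  · obtain ⟨V, hV⟩ : ∃ V, V = S ∩ (U ∩ W ∩ Φ ⁻¹' Metric.closedBall (Φ p) 1) := ⟨_, rfl⟩
    rw [← hV]
    have hVW : V ⊆ W := by rw [hV]; exact fun x hx => hx.2.1.2
    have hanti : AntilipschitzWith (2 * K) (fun x : V => Φ x) := by
      apply AntilipschitzWith.of_le_mul_dist
      intro x y
      have h1 := hWa x (hVW x.2) y (hVW y.2)
      have h2 := hlow ((x : E3) - y)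
      have h3 : ‖fderiv ℝ Φ p ((x : E3) - y)‖ ≤ ‖Φ x - Φ y‖ +
          ‖Φ x - Φ y - fderiv ℝ Φ p ((x : E3) - y)‖ := by
        have h4 : fderiv ℝ Φ p ((x : E3) - y) = (Φ x - Φ y) -
          (Φ x - Φ y - fderiv ℝ Φ p ((x : E3) - y)) := by abel
        calc ‖fderiv ℝ Φ p ((x : E3) - y)‖ = ‖(Φ x - Φ y) -
          (Φ x - Φ y - fderiv ℝ Φ p ((x : E3) - y))‖ := by rw [← h4]
          _ ≤ _ := norm_sub_le _ _
      have h5 : ‖Φ x - Φ y - fderiv ℝ Φ p ((x : E3) - y)‖ ≤ 1 / (2 * (K : ℝ)) * ‖(x : E3) - y‖ := h1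
      have h6 : ‖(x : E3) - y‖ ≤ K * (‖Φ x - Φ y‖ + 1 / (2 * (K : ℝ)) * ‖(x : E3) - y‖) := by
        refine h2.trans ?_
        gcongr
        linarith
      have h7 : (K : ℝ) * (‖Φ x - Φ y‖ + 1 / (2 * (K : ℝ)) * ‖(x : E3) - y‖) =
        K * ‖Φ x - Φ y‖ + ‖(x : E3) - y‖ / 2 := by
        field_simp
      rw [Subtype.dist_eq, dist_eq_norm, dist_eq_norm]
      push_cast
      rw [h7] at h6
      linarith
    have h1 : (Measure.hausdorffMeasure 2 : Measure E3) V =
        (Measure.hausdorffMeasure 2 : Measure V) univ := by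
      rw [← (isometry_subtype_coe (s := V)).hausdorffMeasure_image (Or.inl (by norm_num))]
      simp
    rw [h1]
    refine lt_of_le_of_lt (hanti.le_hausdorffMeasure_image (by norm_num) univ) ?_
    refine ENNReal.mul_lt_top ?_ ?_
    · exact ENNReal.rpow_lt_top_of_nonneg (by norm_num) ENNReal.coe_ne_top
    · refine lt_of_le_of_lt (measure_mono ?_) (hM (‖Φ p‖ + 1))
      rintro _ ⟨x, -, rfl⟩
      have hx : (x : E3) ∈ S ∩ (U ∩ W ∩ Φ ⁻¹' Metric.closedBall (Φ p) 1) := by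
        rw [← hV]; exact x.2
      refine ⟨hS x hx.2.1.1 hx.1, ?_⟩
      have h2 : dist (Φ x) (Φ p) ≤ 1 := hx.2.2
      rw [mem_closedBall_zero_iff]
      rw [dist_eq_norm] at h2
      have h3 : ‖Φ x‖ ≤ ‖Φ x - Φ p‖ + ‖Φ p‖ := by
        have := norm_add_le (Φ x - Φ p) (Φ p)
        simpa using this
      linarith

private lemma locReg {S : Set E3} {p : E3} (h : RegP S p) :
    (Measure.hausdorffMeasure 2 : Measure E3).FiniteAtFilter (𝓝[S] p) := by
  obtain ⟨f, U, hU, hp, hf, hf0, hS, -⟩ := h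
  have hL := hf0 p hp
  obtain ⟨i, hi⟩ : ∃ i : Fin 3, fderiv ℝ f p (bv i) ≠ 0 := by
    by_contra hcon
    push Not at hcon
    apply hL
    ext v
    have hv : v = ∑ i : Fin 3, v i • bv i := by
      ext j
      fin_cases j <;> simp [bv, Fin.sum_univ_three]
    rw [hv, map_sum]
    simp [hcon]
  have hfd : DifferentiableAt ℝ f p :=
    (hf.contDiffAt (hU.mem_nhds hp)).differentiableAt (by norm_num)
  have hder : HasFDerivAt (fun x : E3 => x + (f x - x i) • bv i)
      (ContinuousLinearMap.id ℝ E3 + ((fderiv ℝ f p - EuclideanSpace.proj i).smulRight (bv i))) p := by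
    have h1 : HasFDerivAt (fun x : E3 => x i) (EuclideanSpace.proj i : E3 →L[ℝ] ℝ) p :=
      (EuclideanSpace.proj i : E3 →L[ℝ] ℝ).hasFDerivAt
    exact (hasFDerivAt_id p).add ((hfd.hasFDerivAt.sub h1).smul_const (bv i))
  refine loc (M := {x | (inner ℝ (bv i) x : ℝ) = 0}) (Φ := fun x => x + (f x - x i) • bv i) hU hp ?_
    ?_ (FB_plane _ ?_) ?_
  · have h1 : ContDiffOn ℝ 1 (fun x : E3 => x i) U :=
      ((EuclideanSpace.proj i : E3 →L[ℝ] ℝ).contDiff).contDiffOn
    exact contDiffOn_id.add (((hf.of_le (by norm_num)).sub h1).smul contDiffOn_const)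
  · intro v hv
    rw [hder.fderiv] at hv
    simp only [_root_.add_apply, ContinuousLinearMap.id_apply,
      ContinuousLinearMap.smulRight_apply, _root_.sub_apply] at hv
    have hpr : (EuclideanSpace.proj i : E3 →L[ℝ] ℝ) v = v i := rfl
    rw [hpr] at hv
    have h1 : v = (v i - fderiv ℝ f p v) • bv i := by
      have h0 : v = -((fderiv ℝ f p v - v i) • bv i) := eq_neg_of_add_eq_zero_left hv
      have h00 : -((fderiv ℝ f p v - v i) • bv i) = (v i - fderiv ℝ f p v) • bv i := by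
        rw [← neg_smul]
        congr 1
        ring
      exact h0.trans h00
    have h2 : fderiv ℝ f p v = 0 := by
      have h3 := congrArg (fun w : E3 => w i) h1
      simp [bv] at h3
      linarith
    rw [h2, sub_zero] at h1
    rw [h1, map_smul, smul_eq_mul] at h2
    have h4 : v i = 0 := by
      rcases mul_eq_zero.mp h2 with h | h
      · exact h
      · exact absurd h hi
    rw [h1, h4, zero_smul]
  · intro h0
    have := congrArg (fun w : E3 => w i) h0
    simp [bv] at this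
  · intro x hx hxS
    have h1 : f x = 0 := (hS x hx).mp hxS
    show (inner ℝ (bv i) (x + (f x - x i) • bv i) : ℝ) = 0
    rw [h1, inner_add_right, inner_smul_right]
    simp [bv, EuclideanSpace.inner_single_left]

theorem hFNT : StFNT := by
  intro S Γ h
  refine h.cpt.measure_lt_top_of_nhdsWithin (fun p hp => ?_)
  by_cases hΓ : p ∈ Γ
  · obtain ⟨Φ, U, hU, hpU, hΦ, -, hinj, hS⟩ := h.bdy p hΓ
    refine loc (M := {x | (0 : ℝ) * x 0 + 1 * x 1 + 0 * x 2 = 0}) hU hpU hΦ ?_ (FB_lin (by simp)) ?_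
    · intro v hv
      by_contra hv0
      exact hinj v hv0 hv
    · intro x hx hxS
      have h1 := ((hS x hx).mp hxS).2
      simp [h1]
  · rcases h.int p hp hΓ with h1 | h1 | h1
    · exact locReg h1
    · obtain ⟨Φ, U, hU, hpU, hΦ, -, hiso, hS⟩ := h1
      refine loc hU hpU hΦ ?_ FB_Y (fun x hx hxS => (hS x hx).mp hxS)
      intro v hv
      have h2 := hiso v
      rw [hv, norm_zero] at h2
      exact norm_eq_zero.mp h2.symm
    · obtain ⟨Φ, U, hU, hpU, hΦ, -, hiso, hS⟩ := h1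
      refine loc hU hpU hΦ ?_ FB_T (fun x hx hxS => (hS x hx).mp hxS)
      intro v hv
      have h2 := hiso v
      rw [hv, norm_zero] at h2
      exact norm_eq_zero.mp h2.symm

end Pool.Agent.Helper42.MF
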